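import Pool.Agent.N347.LA.Defs
import Pool.Agent.R448.TW.Split
import Pool.Agent.H352R3.FK.Konig

set_option autoImplicit false

/-! Project LB: a regular sub-multigraph leaving all small clusters. -/

namespace Pool.Agent.N364.LBSTAGE

open Finset

theorem sub_sum {V : Type} [Fintype V] [DecidableEq V] (Γ : V → V → ℕ) (ρ k : ℕ) (hk : k ≤ ρ)
    (hr : ∀ u, ∑ v, Γ u v = ρ) (hc : ∀ v, ∑ u, Γ u v = ρ) :
    ∃ G : V → V → ℕ, (∀ u v, G u v ≤ Γ u v) ∧ (∀ u, ∑ v, G u v = k) ∧
      (∀ v, ∑ u, G u v = k) := by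
  obtain ⟨X, h1, h2, h3⟩ := Pool.Agent.R448.TW.split Γ ρ (fun _ => 1)
    (fun b => by rw [hr b, mul_one]) (fun b => by rw [hc b, mul_one])
  have hcard : (univ.filter (fun i : Fin ρ => (i : ℕ) < k)).card = k := by
    rw [Fin.card_filter_val_lt]
    exact min_eq_right hk
  refine ⟨fun u v => ∑ i ∈ univ.filter (fun i : Fin ρ => (i : ℕ) < k), X i u v, ?_, ?_, ?_⟩
  · intro u v
    rw [← h3 u v]
    exact sum_le_sum_of_subset (filter_subset _ _)
  · intro u
    rw [sum_comm, sum_congr rfl fun i _ => h1 i u, sum_const, hcard, smul_eq_mul, mul_one]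
  · intro v
    rw [sum_comm, sum_congr rfl fun i _ => h2 i v, sum_const, hcard, smul_eq_mul, mul_one]

theorem card_arcs {V : Type} [Fintype V] [DecidableEq V] (G : V → V → ℕ) (p : V × V → Prop)
    [DecidablePred p] :
    (univ.filter (fun e : Σ x : V × V, Fin (G x.1 x.2) => p e.1)).card =
      ∑ x ∈ univ.filter p, G x.1 x.2 := by
  have h : univ.filter (fun e : Σ x : V × V, Fin (G x.1 x.2) => p e.1) =
      (univ.filter p).sigma (fun _ => univ) := by
    ext e
    simp
  rw [h, card_sigma]
  simp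

theorem card_tail {V : Type} [Fintype V] [DecidableEq V] (G : V → V → ℕ) (u : V)
    (P : V → Prop) [DecidablePred P] :
    (univ.filter (fun e : Σ x : V × V, Fin (G x.1 x.2) => e.1.1 = u ∧ P e.1.2)).card =
      ∑ v ∈ univ.filter P, G u v := by
  rw [card_arcs G (fun x => x.1 = u ∧ P x.2)]
  have h : univ.filter (fun x : V × V => x.1 = u ∧ P x.2) = ({u} : Finset V) ×ˢ univ.filter P := by
    ext x
    rw [mem_filter, mem_product, mem_singleton, mem_filter]
    simp only [mem_univ, true_and]
  rw [h, sum_product]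
  simp

theorem card_head {V : Type} [Fintype V] [DecidableEq V] (G : V → V → ℕ) (v : V) :
    (univ.filter (fun e : Σ x : V × V, Fin (G x.1 x.2) => e.1.2 = v)).card =
      ∑ u, G u v := by
  rw [card_arcs G (fun x => x.2 = v)]
  have h : univ.filter (fun x : V × V => x.2 = v) = (univ : Finset V) ×ˢ ({v} : Finset V) := by
    ext x
    rw [mem_filter, mem_product, mem_singleton]
    simp only [mem_univ, true_and]
  rw [h, sum_product]
  simp

theorem count {E V K : Type} [Fintype V] [DecidableEq V] [Fintype K] [DecidableEq K]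
    (π : K → V) (m : ℕ) (hπ : ∀ u, (univ.filter (fun x => π x = u)).card = m) (σ : E → K)
    (M : Finset E) (hσ : Set.InjOn σ (M : Set E)) (hM : m * Fintype.card V ≤ M.card) :
    (∀ x, ∃ e ∈ M, σ e = x) ∧ ∀ u, (M.filter (fun e => π (σ e) = u)).card = m := by
  have hK : Fintype.card K = m * Fintype.card V := by
    have h1 : (univ : Finset K).card = ∑ u ∈ (univ : Finset V), (univ.filter (fun x => π x = u)).card :=
      card_eq_sum_card_fiberwise (fun x _ => mem_univ _)
    rw [card_univ] at h1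
    rw [h1, sum_congr rfl fun u _ => hπ u, sum_const, card_univ, smul_eq_mul, mul_comm]
  have him : M.image σ = univ := by
    apply eq_univ_of_card
    rw [card_image_of_injOn hσ]
    apply le_antisymm
    · rw [← card_image_of_injOn hσ]
      exact card_le_univ _
    · rw [hK]
      exact hM
  refine ⟨fun x => ?_, fun u => ?_⟩
  · have hx : x ∈ M.image σ := by rw [him]; exact mem_univ _
    obtain ⟨e, he, h⟩ := mem_image.1 hx
    exact ⟨e, he, h⟩
  · rw [← hπ u, ← him, filter_image, card_image_of_injOn]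
    exact hσ.mono (by
      intro e he
      exact mem_coe.2 (mem_filter.1 (mem_coe.1 he)).1)

theorem stage {V Q : Type} [Fintype V] [DecidableEq V] [DecidableEq Q] (Γ : V → V → ℕ)
    (ρ m₀ : ℕ) (h1 : 1 ≤ m₀) (h2 : m₀ ≤ ρ) (hr : ∀ u, ∑ v, Γ u v = ρ)
    (hc : ∀ v, ∑ u, Γ u v = ρ) (cl : V → Q) (S : V → Prop)
    (hS : ∀ u, S u → ρ / m₀ + m₀ ≤ ∑ v ∈ univ.filter (fun v => cl v ≠ cl u), Γ u v + 1) :
    ∃ N : V → V → ℕ, (∀ u v, N u v ≤ Γ u v) ∧ (∀ u, ∑ v, N u v = m₀) ∧
      (∀ v, ∑ u, N u v = m₀) ∧ ∀ u, S u → ∃ v, cl v ≠ cl u ∧ 0 < N u v := by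
  classical
  obtain ⟨L, hL⟩ : ∃ L, L = ρ / m₀ := ⟨_, rfl⟩
  have hL1 : 1 ≤ L := by
    rw [hL]
    exact Nat.div_pos h2 h1
  have hLm : L * m₀ ≤ ρ := by
    rw [hL]
    exact Nat.div_mul_le_self _ _
  have hLe : ρ < L * m₀ + m₀ := by
    rw [hL]
    have := Nat.lt_div_mul_add (a := ρ) h1
    omega
  obtain ⟨G, hG, hGr, hGc⟩ := sub_sum Γ ρ (L * m₀) hLm hr hc
  have hlv : ∀ u, S u → L ≤ ∑ v ∈ univ.filter (fun v => cl v ≠ cl u), G u v := by
    intro u hu
    have e1 := hS u hu
    rw [← hL] at e1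
    have e2 : ∑ v ∈ univ.filter (fun v => cl v ≠ cl u), Γ u v +
        ∑ v ∈ univ.filter (fun v => ¬ cl v ≠ cl u), Γ u v = ρ := by
      rw [← hr u]
      exact sum_filter_add_sum_filter_not _ _ _
    have e3 : ∑ v ∈ univ.filter (fun v => cl v ≠ cl u), G u v +
        ∑ v ∈ univ.filter (fun v => ¬ cl v ≠ cl u), G u v = L * m₀ := by
      rw [← hGr u]
      exact sum_filter_add_sum_filter_not _ _ _
    have e4 : ∑ v ∈ univ.filter (fun v => ¬ cl v ≠ cl u), G u v ≤
        ∑ v ∈ univ.filter (fun v => ¬ cl v ≠ cl u), Γ u v := sum_le_sum fun v _ => hG u v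
    omega
  -- the arcs
  have hA : ∀ u, ∃ A ⊆ univ.filter (fun e : Σ x : V × V, Fin (G x.1 x.2) =>
      e.1.1 = u ∧ (S u → cl e.1.2 ≠ cl u)), A.card = L := by
    intro u
    apply exists_subset_card_eq
    rw [card_tail G u (fun v => S u → cl v ≠ cl u)]
    by_cases hu : S u
    · simp only [hu, true_imp_iff]
      exact hlv u hu
    · simp only [hu, false_imp_iff, filter_true]
      rw [hGr u]
      exact Nat.le_mul_of_pos_right _ h1
  choose A hA1 hA2 using hA
  have hAt : ∀ u, ∀ e ∈ A u, e.1.1 = u := fun u e he => (mem_filter.1 (hA1 u he)).2.1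
  have htl : ∀ u, (univ.filter (fun e : Σ x : V × V, Fin (G x.1 x.2) => e.1.1 = u)).card =
      L * m₀ := by
    intro u
    have := card_tail G u (fun _ => True)
    simp only [and_true, filter_true] at this
    rw [this, hGr u]
  obtain ⟨s, hs1, hs2⟩ := Pool.Agent.R448.TW.lift
    (fun e : Σ x : V × V, Fin (G x.1 x.2) => ((e.1.1, decide (e ∈ A e.1.1)) : V × Bool)) L
    (fun b => if b.2 then 1 else m₀ - 1) (by
      rintro ⟨u, b⟩
      have hT : univ.filter (fun e : Σ x : V × V, Fin (G x.1 x.2) =>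
          ((e.1.1, decide (e ∈ A e.1.1)) : V × Bool) = (u, true)) = A u := by
        ext e
        simp only [mem_filter, mem_univ, true_and, Prod.mk.injEq, decide_eq_true_eq]
        constructor
        · rintro ⟨rfl, h⟩
          exact h
        · intro h
          have h4 := hAt u e h
          refine ⟨h4, ?_⟩
          rw [h4]
          exact h
      cases b
      · have hF : univ.filter (fun e : Σ x : V × V, Fin (G x.1 x.2) =>
            ((e.1.1, decide (e ∈ A e.1.1)) : V × Bool) = (u, false)) =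
            univ.filter (fun e : Σ x : V × V, Fin (G x.1 x.2) => e.1.1 = u) \ A u := by
          ext e
          simp only [mem_filter, mem_univ, true_and, Prod.mk.injEq, decide_eq_false_iff_not,
            mem_sdiff]
          constructor
          · rintro ⟨rfl, h⟩
            exact ⟨rfl, h⟩
          · rintro ⟨rfl, h⟩
            exact ⟨rfl, h⟩
        rw [hF, card_sdiff_of_subset (fun e he => mem_filter.2 ⟨mem_univ _, hAt u e he⟩), htl u,
          hA2 u]
        simp only [Bool.false_eq_true, if_false]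
        rw [Nat.mul_sub, mul_one]
      · rw [hT, hA2 u]
        simp)
  obtain ⟨t, ht1, ht2⟩ := Pool.Agent.R448.TW.lift
    (fun e : Σ x : V × V, Fin (G x.1 x.2) => e.1.2) L (fun _ => m₀) (fun v => by
      rw [card_head, hGc v])
  obtain ⟨M, -, hM1, hM2, hM3⟩ := Pool.Agent.H352R3.FK.konig univ s t L
    (fun x => (hs2 x).le) (fun x => (ht2 x).le)
  have hE : (univ : Finset (Σ x : V × V, Fin (G x.1 x.2))).card = L * (m₀ * Fintype.card V) := by
    rw [card_eq_sum_card_fiberwise (f := fun e : Σ x : V × V, Fin (G x.1 x.2) => e.1.1)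
      (t := univ) (fun e _ => mem_univ _), sum_congr rfl fun u _ => htl u, sum_const, card_univ,
      smul_eq_mul]
    ring
  have hMc : m₀ * Fintype.card V ≤ M.card := by
    rw [hE] at hM3
    exact Nat.le_of_mul_le_mul_left hM3 hL1
  have cs := count (fun x : Σ b : V × Bool, Fin (if b.2 then 1 else m₀ - 1) => x.1.1) m₀ (by
    intro u
    have h : univ.filter (fun x : Σ b : V × Bool, Fin (if b.2 then 1 else m₀ - 1) => x.1.1 = u) =
        (({u} : Finset V) ×ˢ (univ : Finset Bool)).sigma (fun _ => univ) := by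
      ext x
      rw [mem_filter, mem_sigma, mem_product, mem_singleton]
      simp only [mem_univ, true_and, and_true]
    rw [h, card_sigma, sum_product, sum_singleton, Fintype.sum_bool]
    simp
    omega) s M hM1 hMc
  have ct := count (fun x : Σ _b : V, Fin m₀ => x.1) m₀ (by
    intro u
    have h : univ.filter (fun x : Σ _b : V, Fin m₀ => x.1 = u) =
        ({u} : Finset V).sigma (fun _ => univ) := by
      ext x
      simp
    rw [h, card_sigma]
    simp) t M hM2 hMc
  refine ⟨fun u v => (M.filter (fun e => e.1.1 = u ∧ e.1.2 = v)).card, ?_, ?_, ?_, ?_⟩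
  · intro u v
    refine le_trans ?_ (hG u v)
    have h := card_tail G u (fun w => w = v)
    rw [filter_eq' univ v, if_pos (mem_univ _), sum_singleton] at h
    rw [← h]
    exact card_le_card (filter_subset_filter _ (subset_univ _))
  · intro u
    rw [← cs.2 u, card_eq_sum_card_fiberwise (f := fun e : Σ x : V × V, Fin (G x.1 x.2) => e.1.2)
      (t := univ) (fun e _ => mem_univ _)]
    refine sum_congr rfl fun v _ => ?_
    rw [filter_filter]
    refine congrArg Finset.card (Finset.ext fun e => ?_)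
    rw [mem_filter, mem_filter, hs1]
  · intro v
    rw [← ct.2 v, card_eq_sum_card_fiberwise (f := fun e : Σ x : V × V, Fin (G x.1 x.2) => e.1.1)
      (t := univ) (fun e _ => mem_univ _)]
    refine sum_congr rfl fun u _ => ?_
    rw [filter_filter]
    refine congrArg Finset.card (Finset.ext fun e => ?_)
    rw [mem_filter, mem_filter, ht1]
    tauto
  · intro u hu
    obtain ⟨e, he, hse⟩ := cs.1 ⟨(u, true), ⟨0, by simp⟩⟩
    have h3 := hs1 e
    rw [hse] at h3
    have h4 : e.1.1 = u := (Prod.mk.inj h3).1.symm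
    have h5 : e ∈ A u := by
      have h6 := (Prod.mk.inj h3).2
      rw [h4] at h6
      exact of_decide_eq_true h6.symm
    have h7 := (mem_filter.1 (hA1 u h5)).2.2 hu
    refine ⟨e.1.2, h7, ?_⟩
    exact card_pos.2 ⟨e, mem_filter.2 ⟨he, h4, rfl⟩⟩

end Pool.Agent.N364.LBSTAGE
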