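import Pool.Agent.N964.MX.Defs2

set_option autoImplicit false

/-!
# Project MX2, part C: splitting of the prime polynomial
-/

namespace Pool.Agent.N364.MX2C

open Complex MeasureTheory
open Pool.Agent.N964.MX

theorem mem_Pl {a : ℝ} {p : ℕ} : p ∈ Pl a ↔ p.Prime ∧ Real.log p ≤ a := by
  unfold Pl
  rw [Finset.mem_filter, Finset.mem_range, Nat.lt_succ_iff]
  constructor
  · rintro ⟨h1, h2⟩
    refine ⟨h2, ?_⟩
    have hp : (0 : ℝ) < p := by exact_mod_cast h2.pos
    rw [Real.log_le_iff_le_exp hp]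
    exact (Nat.le_floor_iff (Real.exp_pos a).le).1 h1
  · rintro ⟨h1, h2⟩
    refine ⟨?_, h1⟩
    have hp : (0 : ℝ) < p := by exact_mod_cast h1.pos
    rw [Real.log_le_iff_le_exp hp] at h2
    exact (Nat.le_floor_iff (Real.exp_pos a).le).2 h2

theorem th_zero (n : ℕ) (l m : ℝ) : th n l m 0 = l := by
  simp [th]

theorem th_last (n : ℕ) (l m : ℝ) : th n l m (n + 1) = 0 := by
  simp [th]

theorem th_of_le {n i : ℕ} (l m : ℝ) (hi : i ≤ n) : th n l m i = l * (1 - (2 ^ i - 1) / m) := by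
  simp [th, hi]

theorem th_ge {n i : ℕ} {l m : ℝ} (hl : 0 < l) (hm : 0 < m) (h : (2 : ℝ) ^ n - 1 ≤ m / 2)
    (hi : i ≤ n) : l / 2 ≤ th n l m i := by
  rw [th_of_le l m hi]
  have h1 : (2 : ℝ) ^ i ≤ 2 ^ n := pow_le_pow_right₀ (by norm_num) hi
  have h2 : ((2 : ℝ) ^ i - 1) / m ≤ 1 / 2 := by
    rw [div_le_iff₀ hm]
    linarith
  nlinarith

theorem th_succ_le {n i : ℕ} {l m : ℝ} (hl : 0 < l) (hm : 0 < m) (h : (2 : ℝ) ^ n - 1 ≤ m / 2)
    (hi : i ≤ n) : th n l m (i + 1) ≤ th n l m i := by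
  rcases Nat.lt_or_ge i n with h1 | h1
  · rw [th_of_le l m hi, th_of_le l m (show i + 1 ≤ n from h1)]
    have h2 : ((2 : ℝ) ^ i - 1) / m ≤ (2 ^ (i + 1) - 1) / m := by
      apply div_le_div_of_nonneg_right _ hm.le
      have : (2 : ℝ) ^ i ≤ 2 ^ (i + 1) := pow_le_pow_right₀ (by norm_num) (by omega)
      linarith
    nlinarith
  · have h2 : i = n := le_antisymm hi h1
    rw [h2, th_last]
    exact le_trans (by linarith) (th_ge hl hm h le_rfl)

theorem th_le {n i : ℕ} {l m : ℝ} (hl : 0 < l) (hm : 0 < m) (hi : i ≤ n) : th n l m i ≤ l := by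
  rw [th_of_le l m hi]
  have h1 : (1 : ℝ) ≤ 2 ^ i := one_le_pow₀ (by norm_num)
  have h2 : 0 ≤ ((2 : ℝ) ^ i - 1) / m := div_nonneg (by linarith) hm.le
  nlinarith

theorem split : S_split := by
  intro n m l δ t hl hm h
  have key : ∀ p ∈ Pl l, ∑ i ∈ Finset.range (n + 1), cp n m l δ i p = cc l δ p := by
    intro p hp
    rw [mem_Pl] at hp
    have hpos : 0 < Real.log p := Real.log_pos (by exact_mod_cast hp.1.one_lt)
    set st : ℕ → ℝ := fun i => if Real.log p ≤ th n l m i then cc l δ p else 0 with hst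
    have h1 : ∀ i ∈ Finset.range (n + 1), cp n m l δ i p = st i - st (i + 1) := by
      intro i hi
      rw [Finset.mem_range, Nat.lt_succ_iff] at hi
      have h2 := th_succ_le hl hm h hi
      simp only [cp, hst]
      by_cases h3 : Real.log p ≤ th n l m (i + 1)
      · rw [if_neg (fun hc => not_lt.2 h3 hc.1), if_pos h3, if_pos (h3.trans h2), sub_self]
      · rw [if_neg h3]
        by_cases h4 : Real.log p ≤ th n l m i
        · rw [if_pos ⟨not_le.1 h3, h4⟩, if_pos h4, sub_zero]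
        · rw [if_neg (fun hc => h4 hc.2), if_neg h4, sub_zero]
    rw [Finset.sum_congr rfl h1, Finset.sum_range_sub']
    simp only [hst, th_zero, th_last]
    rw [if_pos hp.2, if_neg (not_le.2 hpos), sub_zero]
  have hPc : ∀ i ∈ Finset.range (n + 1), Pc n m l δ t i =
      ∑ p ∈ Pl l, ((cp n m l δ i p : ℝ) : ℂ) * (p : ℂ) ^ (-(t : ℂ) * I) := by
    intro i hi
    rw [Finset.mem_range, Nat.lt_succ_iff] at hi
    unfold Pc
    refine Finset.sum_subset ?_ ?_
    · intro p hp
      rw [mem_Pl] at hp ⊢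
      exact ⟨hp.1, hp.2.trans (th_le hl hm hi)⟩
    · intro p hp hp'
      rw [mem_Pl] at hp hp'
      have h2 : cp n m l δ i p = 0 := by
        unfold cp
        rw [if_neg]
        intro hc
        exact hp' ⟨hp.1, hc.2⟩
      rw [h2]
      simp
  have hsum : PP l δ t = ∑ i ∈ Finset.range (n + 1), Pc n m l δ t i := by
    rw [Finset.sum_congr rfl hPc, Finset.sum_comm]
    unfold PP
    refine Finset.sum_congr rfl fun p hp => ?_
    rw [← Finset.sum_mul, ← key p hp]
    push_cast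
    rfl
  rw [hsum]
  exact norm_sum_le _ _

theorem var_of (h1 : S_edge) (h2 : S_loc) (h3 : S_coef) : S_var := by
  obtain ⟨C1, hC1, h1⟩ := h1
  obtain ⟨C2, hC2, h2⟩ := h2
  obtain ⟨C3, hC3, h3⟩ := h3
  refine ⟨max 1 (max (160 * C1 ^ 2 * C2) (512 * C3)), le_max_left _ _, ?_⟩
  intro n i m l δ hl hδ hδ1 hm h hm2 hml hlog hDd hi
  have hl0 : 0 < l := by linarith
  have hm0 : 0 < m := by linarith
  set B := max 1 (max (160 * C1 ^ 2 * C2) (512 * C3)) with hB
  have hB1 : 160 * C1 ^ 2 * C2 ≤ B := le_trans (le_max_left _ _) (le_max_right _ _)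
  have hB2 : 512 * C3 ≤ B := le_trans (le_max_right _ _) (le_max_right _ _)
  have hDd0 : 0 ≤ Dd l δ := by
    unfold Dd
    apply Real.log_nonneg
    have : 0 ≤ 1 / (l * δ) := by positivity
    linarith
  have hww := (h3 l δ hl hδ hδ1).1
  rcases Nat.lt_or_ge i n with hin | hin
  · -- a piece below the last one
    have ha : l / 2 ≤ th n l m (i + 1) := th_ge hl0 hm0 h hin
    have hab : th n l m (i + 1) ≤ th n l m i := th_succ_le hl0 hm0 h hi
    have hloc := h2 (th n l m (i + 1)) (th n l m i) (by linarith) hab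
    have hdiff : th n l m i - th n l m (i + 1) = l * 2 ^ i / m := by
      rw [th_of_le l m hi, th_of_le l m (show i + 1 ≤ n from hin), pow_succ]
      field_simp
      ring
    have h2i : (1 : ℝ) ≤ 2 ^ i := one_le_pow₀ (by norm_num)
    -- the coefficients
    have hcp : ∀ p ∈ (Pl (th n l m i)).filter (fun p : ℕ => th n l m (i + 1) < Real.log p),
        cp n m l δ i p ^ 2 ≤ 16 * C1 ^ 2 * 4 ^ i * (1 / (p : ℝ)) := by
      intro p hp
      rw [Finset.mem_filter, mem_Pl] at hp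
      obtain ⟨⟨hpp, hp1⟩, hp2⟩ := hp
      have hp0 : (0 : ℝ) < p := by exact_mod_cast hpp.pos
      have hu1 : l / 2 ≤ Real.log p := by linarith
      have hu0 : 0 < Real.log p := by linarith
      have hu2 : Real.log p ≤ l := hp1.trans (th_le hl0 hm0 hi)
      have hw0 := (hww (Real.log p) hu0 hu2).1
      have hw1 := h1 l δ (Real.log p) hl hδ hδ1 hu1 hu2
      have hlu : l - Real.log p ≤ 2 * l * 2 ^ i / m := by
        have h4 : th n l m (i + 1) = l * (1 - (2 ^ (i + 1) - 1) / m) :=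
          th_of_le l m (show i + 1 ≤ n from hin)
        have h5 : l * (1 - (2 ^ (i + 1) - 1) / m) = l - l * (2 * 2 ^ i - 1) / m := by
          rw [pow_succ]
          ring
        have h6 : l * (2 * 2 ^ i - 1) / m ≤ 2 * l * 2 ^ i / m := by
          apply div_le_div_of_nonneg_right _ hm0.le
          nlinarith
        linarith
      have hlu0 : 0 ≤ l - Real.log p := by linarith
      have hw2 : ww l δ (Real.log p) ≤ 4 * C1 * 2 ^ i / l := by
        calc ww l δ (Real.log p) ≤ C1 * ((l - Real.log p) / l ^ 2) * Dd l δ := hw1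
          _ ≤ C1 * ((2 * l * 2 ^ i / m) / l ^ 2) * (2 * m) := by gcongr
          _ = 4 * C1 * 2 ^ i / l := by
            field_simp
            ring
      have hcc0 : 0 ≤ cc l δ p := by
        unfold cc
        positivity
      have hcc1 : cc l δ p ≤ 4 * C1 * 2 ^ i / Real.sqrt p := by
        unfold cc
        calc Real.log p / Real.sqrt p * ww l δ (Real.log p)
            ≤ l / Real.sqrt p * (4 * C1 * 2 ^ i / l) := by gcongr
          _ = 4 * C1 * 2 ^ i / Real.sqrt p := by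
            field_simp
      have hcpe : cp n m l δ i p = cc l δ p := by
        unfold cp
        rw [if_pos ⟨hp2, hp1⟩]
      rw [hcpe]
      calc cc l δ p ^ 2 ≤ (4 * C1 * 2 ^ i / Real.sqrt p) ^ 2 := by gcongr
        _ = 16 * C1 ^ 2 * 4 ^ i * (1 / (p : ℝ)) := by
          rw [div_pow, Real.sq_sqrt hp0.le, mul_pow, mul_pow, ← pow_mul, mul_comm i 2, pow_mul]
          norm_num
          ring
    have hfil : ∑ p ∈ Pl (th n l m i), cp n m l δ i p ^ 2 =
        ∑ p ∈ (Pl (th n l m i)).filter (fun p : ℕ => th n l m (i + 1) < Real.log p),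
          cp n m l δ i p ^ 2 := by
      rw [Finset.sum_filter]
      refine Finset.sum_congr rfl fun p _ => ?_
      split_ifs with hc
      · rfl
      · unfold cp
        rw [if_neg (fun h' => hc h'.1)]
        ring
    rw [hfil]
    calc ∑ p ∈ (Pl (th n l m i)).filter (fun p : ℕ => th n l m (i + 1) < Real.log p),
          cp n m l δ i p ^ 2
        ≤ ∑ p ∈ (Pl (th n l m i)).filter (fun p : ℕ => th n l m (i + 1) < Real.log p),
          16 * C1 ^ 2 * 4 ^ i * (1 / (p : ℝ)) := Finset.sum_le_sum hcp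
      _ = 16 * C1 ^ 2 * 4 ^ i *
          ∑ p ∈ (Pl (th n l m i)).filter (fun p : ℕ => th n l m (i + 1) < Real.log p),
            1 / (p : ℝ) := by rw [Finset.mul_sum]
      _ ≤ 16 * C1 ^ 2 * 4 ^ i *
          (C2 * ((th n l m i - th n l m (i + 1) + 1) / th n l m (i + 1))) := by gcongr
      _ ≤ 16 * C1 ^ 2 * 4 ^ i * (C2 * ((l * 2 ^ i / m + 1) / (l / 2))) := by
        rw [hdiff]
        gcongr
      _ ≤ 16 * C1 ^ 2 * 4 ^ i * (C2 * (10 * 2 ^ i / m)) := by
        have h5 : (l * 2 ^ i / m + 1) / (l / 2) ≤ 10 * 2 ^ i / m := by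
          rw [div_le_div_iff₀ (by linarith) hm0]
          have h6 : (l * 2 ^ i / m + 1) * m = l * 2 ^ i + m := by
            field_simp
          rw [h6]
          nlinarith
        gcongr
      _ = 160 * C1 ^ 2 * C2 * (8 : ℝ) ^ i / m := by
        have h6 : (8 : ℝ) ^ i = 4 ^ i * 2 ^ i := by
          rw [← mul_pow]
          norm_num
        rw [h6]
        ring
      _ ≤ B * 8 ^ i / m := by gcongr
  · -- the last piece
    have hin' : i = n := le_antisymm hi hin
    subst hin'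
    have hall := (h3 l δ hl hδ hδ1).2.1
    have hsub : ∑ p ∈ Pl (th i l m i), cp i m l δ i p ^ 2 ≤ ∑ p ∈ Pl l, cc l δ p ^ 2 := by
      calc ∑ p ∈ Pl (th i l m i), cp i m l δ i p ^ 2
          ≤ ∑ p ∈ Pl (th i l m i), cc l δ p ^ 2 := by
            refine Finset.sum_le_sum fun p _ => ?_
            unfold cp
            split_ifs
            · exact le_rfl
            · simpa using sq_nonneg (cc l δ p)
        _ ≤ ∑ p ∈ Pl l, cc l δ p ^ 2 := by
            refine Finset.sum_le_sum_of_subset_of_nonneg ?_ fun _ _ _ => sq_nonneg _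
            intro p hp
            rw [mem_Pl] at hp ⊢
            exact ⟨hp.1, hp.2.trans (th_le hl0 hm0 le_rfl)⟩
    have hm3 : m ^ 3 ≤ 64 * 8 ^ i := by
      have h4 : m ^ 3 ≤ (4 * 2 ^ i) ^ 3 := by gcongr
      have h5 : ((4 : ℝ) * 2 ^ i) ^ 3 = 64 * 8 ^ i := by
        rw [mul_pow, ← pow_mul, mul_comm i 3, pow_mul]
        norm_num
      rwa [h5] at h4
    have hfin : C3 * (1 + Real.log l + Dd l δ ^ 2) ≤ 8 * C3 * m ^ 2 := by
      have h4 : Dd l δ ^ 2 ≤ (2 * m) ^ 2 := by gcongr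
      have h5 : 1 + Real.log l + Dd l δ ^ 2 ≤ 8 * m ^ 2 := by nlinarith
      nlinarith
    have hfin2 : 8 * C3 * m ^ 2 ≤ 512 * C3 * 8 ^ i / m := by
      rw [le_div_iff₀ hm0]
      nlinarith
    calc ∑ p ∈ Pl (th i l m i), cp i m l δ i p ^ 2 ≤ ∑ p ∈ Pl l, cc l δ p ^ 2 := hsub
      _ ≤ C3 * (1 + Real.log l + Dd l δ ^ 2) := hall
      _ ≤ 8 * C3 * m ^ 2 := hfin
      _ ≤ 512 * C3 * 8 ^ i / m := hfin2
      _ ≤ B * 8 ^ i / m := by gcongr

end Pool.Agent.N364.MX2C
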