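import Pool.Agent.N979.P1.Stm

/-!
# P1/ENDP: a certificate gives a calibration
-/

set_option autoImplicit false

open MeasureTheory Metric Set Filter Topology InnerProductGeometry Matrix
open Pool.Agent.H241R3.FV Pool.Agent.N526.CP Pool.Agent.N979.P1

namespace Pool.Agent.N364.P1.ENDP

theorem finsg : IsFiniteMeasure (sg 2) := by
  refine ⟨?_⟩
  unfold sg
  rw [Measure.smul_apply, smul_eq_mul]
  by_cases h0 : sig 2 univ = 0
  · rw [h0, mul_zero]
    exact ENNReal.zero_lt_top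
  · rw [ENNReal.inv_mul_cancel h0 (measure_ne_top _ _)]
    exact ENNReal.one_lt_top

/-! ### the coordinates -/

theorem Ax0 (θ : Sph 2) (z : E 2) : Ax θ z 0 = z 0 * (θ : E 2) 0 + z 1 * (θ : E 2) 1 := by
  unfold Ax
  simp [PiLp.inner_apply, Fin.sum_univ_two, mul_comm]

theorem Ax1 (θ : Sph 2) (z : E 2) : Ax θ z 1 = -(z 0 * (θ : E 2) 1) + z 1 * (θ : E 2) 0 := by
  unfold Ax Jr
  simp [PiLp.inner_apply, Fin.sum_univ_two, mul_comm]

theorem sph_sq (θ : Sph 2) : (θ : E 2) 0 ^ 2 + (θ : E 2) 1 ^ 2 = 1 := by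
  have h := norm_sph θ
  have h1 : ‖(θ : E 2)‖ ^ 2 = ∑ i, ‖(θ : E 2) i‖ ^ 2 := EuclideanSpace.norm_sq_eq _
  rw [h, Fin.sum_univ_two] at h1
  simp only [Real.norm_eq_abs, sq_abs] at h1
  linarith

theorem Ax_sq (θ e : Sph 2) : Ax θ (e : E 2) 0 ^ 2 + Ax θ (e : E 2) 1 ^ 2 = 1 := by
  rw [Ax0, Ax1]
  have h1 := sph_sq θ
  have h2 := sph_sq e
  have h3 : ((e : E 2) 0 ^ 2 + (e : E 2) 1 ^ 2) * ((θ : E 2) 0 ^ 2 + (θ : E 2) 1 ^ 2) = 1 := by
    rw [h1, h2, one_mul]
  linear_combination h3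

theorem Ax_le (θ e : Sph 2) : |Ax θ (e : E 2) 0| ≤ 1 ∧ |Ax θ (e : E 2) 1| ≤ 1 := by
  have h := Ax_sq θ e
  constructor <;> rw [← sq_le_one_iff_abs_le_one] <;> nlinarith

theorem Ax_cont (e : E 2) : Continuous (fun θ : Sph 2 => Ax θ e) := by
  have h0 : ∀ i : Fin 2, Continuous (fun θ : Sph 2 => (θ : E 2) i) := fun i => by fun_prop
  refine (PiLp.continuous_toLp 2 (fun _ : Fin 2 => ℝ)).comp (continuous_pi fun i => ?_)
  fin_cases i
  · have : (fun θ : Sph 2 => Ax θ e 0) = fun θ : Sph 2 => e 0 * (θ : E 2) 0 + e 1 * (θ : E 2) 1 := by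
      funext θ
      exact Ax0 θ e
    show Continuous (fun θ : Sph 2 => Ax θ e 0)
    rw [this]
    have := h0 0
    have := h0 1
    fun_prop
  · have : (fun θ : Sph 2 => Ax θ e 1) =
        fun θ : Sph 2 => -(e 0 * (θ : E 2) 1) + e 1 * (θ : E 2) 0 := by
      funext θ
      exact Ax1 θ e
    show Continuous (fun θ : Sph 2 => Ax θ e 1)
    rw [this]
    have := h0 0
    have := h0 1
    fun_prop

theorem m0 : Measurable (fun w : E 2 => w 0) := by fun_prop

theorem m1 : Measurable (fun w : E 2 => w 1) := by fun_prop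

/-! ### measurability -/

theorem meas_sct {L : ℕ} (t : Fin L → ℝ) (F : Fin (L + 1) → ℝ) :
    Measurable fun w : E 2 => F (sct t w) := by
  have hc : Measurable (fun w : E 2 =>
      (Finset.univ.filter fun i => t i * |w 0| ≤ |w 1|).card) := by
    simp only [Finset.card_filter]
    refine Finset.measurable_sum _ fun i _ => ?_
    refine Measurable.ite (measurableSet_le ?_ ?_) measurable_const measurable_const
    · exact (m0.abs).const_mul _
    · exact m1.abs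
  have h1 : Measurable (fun n : ℕ => if h : n < L + 1 then F ⟨n, h⟩ else (0 : ℝ)) :=
    measurable_from_nat
  have h2 : (fun w : E 2 => F (sct t w)) =
      (fun n : ℕ => if h : n < L + 1 then F ⟨n, h⟩ else (0 : ℝ)) ∘ (fun w : E 2 =>
      (Finset.univ.filter fun i => t i * |w 0| ≤ |w 1|).card) := by
    funext w
    have h3 := (sct t w).2
    simp only [Function.comp_apply]
    unfold sct at h3 ⊢
    rw [dif_pos h3]
  rw [h2]
  exact h1.comp hc

theorem meas_sign : Measurable (fun x : ℝ => ((SignType.sign x : SignType) : ℝ)) := by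
  have h : (fun x : ℝ => ((SignType.sign x : SignType) : ℝ)) =
      fun x => if 0 < x then 1 else if x < 0 then -1 else 0 := by
    funext x
    rw [sign_apply]
    split_ifs <;> simp
  rw [h]
  exact Measurable.ite measurableSet_Ioi measurable_const
    (Measurable.ite measurableSet_Iio measurable_const measurable_const)

theorem abs_sign (x : ℝ) : |((SignType.sign x : SignType) : ℝ)| ≤ 1 := by
  rw [sign_apply]
  split_ifs <;> simp

/-- the function of the sectors -/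
noncomputable def Fo {L : ℕ} (t : Fin L → ℝ) (al be : Fin (L + 1) → ℝ) (w : E 2) : ℝ :=
  SignType.sign (w 0) * (al (sct t w) * |w 1| - be (sct t w) * |w 0|)

theorem meas_Fo {L : ℕ} (t : Fin L → ℝ) (al be : Fin (L + 1) → ℝ) : Measurable (Fo t al be) := by
  unfold Fo
  exact (meas_sign.comp m0).mul (((meas_sct t al).mul m1.abs).sub ((meas_sct t be).mul m0.abs))

theorem Fo_le {L : ℕ} (t : Fin L → ℝ) (al be : Fin (L + 1) → ℝ) (w : E 2) (h0 : |w 0| ≤ 1)
    (h1 : |w 1| ≤ 1) : |Fo t al be w| ≤ ∑ l, |al l| + ∑ l, |be l| := by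
  unfold Fo
  rw [abs_mul]
  have h2 : |(al (sct t w) * |w 1| - be (sct t w) * |w 0|)| ≤ ∑ l, |al l| + ∑ l, |be l| := by
    refine (abs_sub _ _).trans ?_
    rw [abs_mul, abs_mul, abs_abs, abs_abs]
    refine add_le_add ?_ ?_
    · calc |al (sct t w)| * |w 1| ≤ |al (sct t w)| * 1 :=
          mul_le_mul_of_nonneg_left h1 (abs_nonneg _)
        _ = |al (sct t w)| := mul_one _
        _ ≤ ∑ l, |al l| := Finset.single_le_sum (f := fun l => |al l|)
            (fun _ _ => abs_nonneg _) (Finset.mem_univ _)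
    · calc |be (sct t w)| * |w 0| ≤ |be (sct t w)| * 1 :=
          mul_le_mul_of_nonneg_left h0 (abs_nonneg _)
        _ = |be (sct t w)| := mul_one _
        _ ≤ ∑ l, |be l| := Finset.single_le_sum (f := fun l => |be l|)
            (fun _ _ => abs_nonneg _) (Finset.mem_univ _)
  calc |((SignType.sign (w 0) : SignType) : ℝ)| * |(al (sct t w) * |w 1| - be (sct t w) * |w 0|)|
      ≤ 1 * |(al (sct t w) * |w 1| - be (sct t w) * |w 0|)| :=
        mul_le_mul_of_nonneg_right (abs_sign _) (abs_nonneg _)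
    _ ≤ _ := by rw [one_mul]; exact h2

theorem meas_Mc' (t : ℝ) : Measurable (Mc' t) := by
  unfold Mc'
  refine Measurable.ite (measurableSet_lt m1.abs (m0.abs.const_mul _)) m0 ?_
  exact Measurable.ite (measurableSet_lt measurable_const m0) ((m1.abs.const_mul _).neg)
    (m1.abs.const_mul _)

theorem Mc'_le (t : ℝ) (w : E 2) (h0 : |w 0| ≤ 1) (h1 : |w 1| ≤ 1) : |Mc' t w| ≤ 1 + |t| := by
  have h2 : |(t * |w 1|)| ≤ |t| := by
    rw [abs_mul, abs_abs]
    calc |t| * |w 1| ≤ |t| * 1 := mul_le_mul_of_nonneg_left h1 (abs_nonneg _)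
      _ = |t| := mul_one _
  have h3 := abs_nonneg t
  unfold Mc'
  split_ifs
  · linarith
  · rw [abs_neg]
    linarith
  · linarith

theorem meas_C {N L : ℕ} (D : Dat N L) (r : ℝ) : Measurable (D.C r) := by
  unfold Dat.C
  refine Measurable.neg ((m0.const_mul _).add (Finset.measurable_sum _ fun j _ => ?_))
  split_ifs
  · refine Measurable.const_mul ((m0.const_mul _).add (Finset.measurable_sum _ fun i _ => ?_)) _
    exact (meas_Mc' _).const_mul _
  · exact measurable_const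

theorem C_le {N L : ℕ} (D : Dat N L) (r : ℝ) (w : E 2) (h0 : |w 0| ≤ 1) (h1 : |w 1| ≤ 1) :
    |D.C r w| ≤ |D.ka| + ∑ j, |1 - D.ρ j / r| * (|D.m0 j| + ∑ i, |D.m j i| * (1 + |D.t i|)) := by
  unfold Dat.C
  rw [abs_neg]
  refine (abs_add_le _ _).trans (add_le_add ?_ ?_)
  · rw [abs_mul]
    calc |D.ka| * |w 0| ≤ |D.ka| * 1 := mul_le_mul_of_nonneg_left h0 (abs_nonneg _)
      _ = |D.ka| := mul_one _
  · refine (Finset.abs_sum_le_sum_abs _ _).trans (Finset.sum_le_sum fun j _ => ?_)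
    have hpos : 0 ≤ |D.m0 j| + ∑ i, |D.m j i| * (1 + |D.t i|) := by positivity
    split_ifs
    · rw [abs_mul]
      refine mul_le_mul_of_nonneg_left ?_ (abs_nonneg _)
      refine (abs_add_le _ _).trans (add_le_add ?_ ?_)
      · rw [abs_mul]
        calc |D.m0 j| * |w 0| ≤ |D.m0 j| * 1 := mul_le_mul_of_nonneg_left h0 (abs_nonneg _)
          _ = |D.m0 j| := mul_one _
      · refine (Finset.abs_sum_le_sum_abs _ _).trans (Finset.sum_le_sum fun i _ => ?_)
        rw [abs_mul]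
        exact mul_le_mul_of_nonneg_left (Mc'_le _ w h0 h1) (abs_nonneg _)
    · rw [abs_zero]
      exact mul_nonneg (abs_nonneg _) hpos

/-- the function of the sectors, completed by `C` on the axes -/
noncomputable def Ci {N L : ℕ} (D : Dat N L) (r : ℝ) (al be : Fin (L + 1) → ℝ) (w : E 2) : ℝ :=
  open Classical in
  if ‖w‖ = 1 ∧ w 0 ≠ 0 ∧ w 1 ≠ 0 then Fo D.t al be w else D.C r w

theorem meas_Ci {N L : ℕ} (D : Dat N L) (r : ℝ) (al be : Fin (L + 1) → ℝ) :
    Measurable (Ci D r al be) := by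
  unfold Ci
  refine Measurable.ite ?_ (meas_Fo _ _ _) (meas_C D r)
  have h1 : MeasurableSet {w : E 2 | ‖w‖ = 1} :=
    measurableSet_eq_fun measurable_norm measurable_const
  have h2 : MeasurableSet {w : E 2 | w 0 ≠ 0} := (measurableSet_eq_fun m0 measurable_const).compl
  have h3 : MeasurableSet {w : E 2 | w 1 ≠ 0} := (measurableSet_eq_fun m1 measurable_const).compl
  exact h1.inter (h2.inter h3)

theorem Ci_int {N L : ℕ} (D : Dat N L) (r : ℝ) (al be : Fin (L + 1) → ℝ) (e : Sph 2)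
    (a : Sph 2 → E 2) (ha : Measurable a) (ha1 : ∀ᵐ θ ∂(sg 2), ‖a θ‖ ≤ 1) :
    Integrable (fun θ : Sph 2 => Ci D r al be (Ax θ (e : E 2)) • a θ) (sg 2) := by
  have hf := finsg
  have hm : Measurable (fun θ : Sph 2 => Ci D r al be (Ax θ (e : E 2)) • a θ) :=
    ((meas_Ci D r al be).comp (Ax_cont (e : E 2)).measurable).smul ha
  obtain ⟨M, hM⟩ : ∃ M : ℝ, M = (∑ l, |al l| + ∑ l, |be l|) + (|D.ka| +
    ∑ j, |1 - D.ρ j / r| * (|D.m0 j| + ∑ i, |D.m j i| * (1 + |D.t i|))) := ⟨_, rfl⟩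
  have hA : 0 ≤ ∑ l, |al l| + ∑ l, |be l| := by positivity
  have hB : 0 ≤ |D.ka| +
    ∑ j, |1 - D.ρ j / r| * (|D.m0 j| + ∑ i, |D.m j i| * (1 + |D.t i|)) := by positivity
  refine Integrable.of_bound hm.aestronglyMeasurable M ?_
  filter_upwards [ha1] with θ hθ
  obtain ⟨b0, b1⟩ := Ax_le θ e
  have h1 : |Ci D r al be (Ax θ (e : E 2))| ≤ M := by
    unfold Ci
    split_ifs
    · have := Fo_le D.t al be _ b0 b1
      rw [hM]
      linarith
    · have := C_le D r _ b0 b1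
      rw [hM]
      linarith
  rw [norm_smul, Real.norm_eq_abs]
  calc |Ci D r al be (Ax θ (e : E 2))| * ‖a θ‖ ≤ M * 1 :=
        mul_le_mul h1 hθ (norm_nonneg _) ((abs_nonneg _).trans h1)
    _ = M := mul_one _

theorem Jf_aff (e : Sph 2) (A C C1 C2 : E 2 → ℝ) (a : Sph 2 → E 2) (τ : ℝ)
    (hC : ∀ w, C w = τ * C1 w + (1 - τ) * C2 w)
    (i1 : Integrable (fun θ : Sph 2 => C1 (Ax θ (e : E 2)) • a θ) (sg 2))
    (i2 : Integrable (fun θ : Sph 2 => C2 (Ax θ (e : E 2)) • a θ) (sg 2)) :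
    Jf e A C a = τ * Jf e A C1 a + (1 - τ) * Jf e A C2 a := by
  have h : ∫ θ, C (Ax θ (e : E 2)) • a θ ∂(sg 2) =
      τ • (∫ θ, C1 (Ax θ (e : E 2)) • a θ ∂(sg 2)) +
        (1 - τ) • (∫ θ, C2 (Ax θ (e : E 2)) • a θ ∂(sg 2)) := by
    have h1 := integral_add (i1.smul τ) (i2.smul (1 - τ))
    simp only [Pi.smul_apply] at h1
    rw [← integral_smul, ← integral_smul, ← h1]
    congr 1
    funext θ
    rw [hC, add_smul, mul_smul, mul_smul]
  unfold Jf
  rw [h]
  unfold dt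
  simp only [PiLp.add_apply, PiLp.smul_apply, smul_eq_mul]
  ring

theorem al_aff {N L : ℕ} (D : Dat N L) (f f1 f2 : Fin N → ℝ) (τ : ℝ)
    (hf : ∀ j, f j = τ * f1 j + (1 - τ) * f2 j) (l : Fin (L + 1)) :
    D.al f l = τ * D.al f1 l + (1 - τ) * D.al f2 l := by
  unfold Dat.al
  rw [Finset.mul_sum, Finset.mul_sum, ← Finset.sum_add_distrib]
  refine Finset.sum_congr rfl fun j _ => ?_
  rw [hf j]
  ring

theorem be_aff {N L : ℕ} (D : Dat N L) (f f1 f2 : Fin N → ℝ) (τ : ℝ)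
    (hf : ∀ j, f j = τ * f1 j + (1 - τ) * f2 j) (l : Fin (L + 1)) :
    D.be f l = τ * D.be f1 l + (1 - τ) * D.be f2 l := by
  unfold Dat.be
  have h : ∑ j, f j * (D.m0 j + ∑ i : Fin L, if l.val ≤ i.val then D.m j i else 0) =
      τ * ∑ j, f1 j * (D.m0 j + ∑ i : Fin L, if l.val ≤ i.val then D.m j i else 0) +
      (1 - τ) * ∑ j, f2 j * (D.m0 j + ∑ i : Fin L, if l.val ≤ i.val then D.m j i else 0) := by
    rw [Finset.mul_sum, Finset.mul_sum, ← Finset.sum_add_distrib]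
    refine Finset.sum_congr rfl fun j _ => ?_
    rw [hf j]
    ring
  rw [h]
  ring

theorem com (h2 : S_JPOL) (h3 : S_JZER) (h4 : S_SECC) (h5 : S_SGN) {N L : ℕ} (D : Dat N L) (R : ℝ)
    (hR : 2 / Real.pi ≤ R) (hc : Cert D R) (z : E 2) (hz : ∀ j, ‖z‖ ≠ D.ρ j)
    (hz2 : ‖z‖ < 2 / Real.pi) (a : Sph 2 → E 2) (ha : Measurable a)
    (ha1 : ∀ᵐ θ ∂(sg 2), ‖a θ‖ ≤ 1) : |Jk D.k z a| ≤ 1 := by
  by_cases hsmall : ∀ j, ‖z‖ < D.ρ j
  · exact h3 N L D hc.pos hc.tpos hc.ka z hsmall a ha ha1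
  · push Not at hsmall
    obtain ⟨j0, hj0⟩ := hsmall
    have hj0' : D.ρ j0 < ‖z‖ := lt_of_le_of_ne hj0 (fun h => hz j0 h.symm)
    have hr : 0 < ‖z‖ := (hc.pos j0).trans hj0'
    obtain ⟨r, hrz⟩ : ∃ r : ℝ, r = ‖z‖ := ⟨_, rfl⟩
    rw [← hrz] at hz hz2 hj0' hr
    obtain ⟨e, he⟩ : ∃ e : Sph 2, z = r • (e : E 2) := by
      refine ⟨⟨r⁻¹ • z, ?_⟩, ?_⟩
      · rw [mem_sphere_zero_iff_norm, norm_smul, norm_inv, Real.norm_eq_abs, abs_of_pos hr, hrz,
          inv_mul_cancel₀ (hrz ▸ hr.ne')]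
      · simp only
        rw [smul_smul, mul_inv_cancel₀ hr.ne', one_smul]
    classical
    set s : Finset (Fin N) := Finset.univ.filter (fun j => D.ρ j < r) with hs
    have hne : s.Nonempty := ⟨j0, by rw [hs]; simp [hj0']⟩
    set J := s.max' hne with hJ
    have hJmem : D.ρ J < r := by
      have := s.max'_mem hne
      exact (Finset.mem_filter.1 this).2
    have hiff : ∀ j : Fin N, D.ρ j < r ↔ j.val < J.val + 1 := by
      intro j
      constructor
      · intro h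
        have h1 : j ≤ J := s.le_max' j (by rw [hs]; simp [h])
        have h2 : j.val ≤ J.val := h1
        omega
      · intro h
        have h1 : j ≤ J := by
          show j.val ≤ J.val
          omega
        exact lt_of_le_of_lt (hc.mono.monotone h1) hJmem
    obtain ⟨r₂, hr₂a, hr₂b, hrr₂⟩ : ∃ r₂ : ℝ, (∀ h : J.val + 1 < N, r₂ = D.ρ ⟨J.val + 1, h⟩) ∧
        (J.val + 1 = N → r₂ = R) ∧ r < r₂ := by
      by_cases h : J.val + 1 < N
      · refine ⟨D.ρ ⟨J.val + 1, h⟩, fun _ => rfl, fun h' => by omega, ?_⟩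
        have h1 : ¬ D.ρ ⟨J.val + 1, h⟩ < r := by
          rw [hiff]
          simp
        exact lt_of_le_of_ne (not_lt.1 h1) (hz _)
      · exact ⟨R, fun h' => absurd h' h, fun _ => rfl, lt_of_lt_of_le hz2 hR⟩
    have hr₁ : 0 < D.ρ J := hc.pos J
    obtain ⟨l1, hl1⟩ := hc.lo J
    obtain ⟨l2, hl2⟩ := hc.hi J r₂ hr₂a hr₂b
    have hsg := h5 N L D hc.pos hc.mono hc.tpos hc.tmono (J.val + 1) r hr hiff
    -- the convex combination
    have hr₂0 : 0 < r₂ := hr.trans hrr₂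
    have e1 : 1 / r₂ < 1 / r := one_div_lt_one_div_of_lt hr hrr₂
    have e2 : 1 / r < 1 / D.ρ J := one_div_lt_one_div_of_lt hr₁ hJmem
    obtain ⟨τ, hτ⟩ : ∃ τ : ℝ, τ = (1 / r - 1 / r₂) / (1 / D.ρ J - 1 / r₂) := ⟨_, rfl⟩
    have hden : 0 < 1 / D.ρ J - 1 / r₂ := by linarith
    have hτ0 : 0 ≤ τ := by
      rw [hτ]
      exact div_nonneg (by linarith) hden.le
    have hτ1 : τ ≤ 1 := by
      rw [hτ, div_le_one hden]
      linarith
    have hτe : 1 / r = τ * (1 / D.ρ J) + (1 - τ) * (1 / r₂) := by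
      have : τ * (1 / D.ρ J - 1 / r₂) = 1 / r - 1 / r₂ := by
        rw [hτ]
        exact div_mul_cancel₀ _ hden.ne'
      linarith
    have hfC : ∀ j, fC D (J.val + 1) r j =
        τ * fC D (J.val + 1) (D.ρ J) j + (1 - τ) * fC D (J.val + 1) r₂ j := by
      intro j
      unfold fC
      split_ifs
      · have h1 : D.ρ j / r = D.ρ j * (1 / r) := by ring
        have h2 : D.ρ j / D.ρ J = D.ρ j * (1 / D.ρ J) := by ring
        have h3 : D.ρ j / r₂ = D.ρ j * (1 / r₂) := by ring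
        rw [h1, h2, h3, hτe]
        ring
      · ring
    set C1 := Ci D r (D.al (fC D (J.val + 1) (D.ρ J))) (D.be (fC D (J.val + 1) (D.ρ J))) with hC1
    set C2 := Ci D r (D.al (fC D (J.val + 1) r₂)) (D.be (fC D (J.val + 1) r₂)) with hC2
    have hCC : ∀ w, D.C r w = τ * C1 w + (1 - τ) * C2 w := by
      intro w
      rw [hC1, hC2]
      unfold Ci
      split_ifs with hw
      · rw [(hsg w hw.1 hw.2.1 hw.2.2).2]
        unfold Fo
        rw [al_aff D _ _ _ τ hfC, be_aff D _ _ _ τ hfC]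
        ring
      · ring
    have hJ1 : |Jf e (D.A r) C1 a| ≤ 1 := by
      refine h4 L D.t hc.tpos hc.tmono _ _ _ _ l1 hl1 (D.A r) C1
        (fun w w1 w2 w3 => (hsg w w1 w2 w3).1) (fun w w1 w2 w3 => ?_) e a ha ha1
      rw [hC1]
      unfold Ci
      rw [if_pos ⟨w1, w2, w3⟩]
      rfl
    have hJ2 : |Jf e (D.A r) C2 a| ≤ 1 := by
      refine h4 L D.t hc.tpos hc.tmono _ _ _ _ l2 hl2 (D.A r) C2
        (fun w w1 w2 w3 => (hsg w w1 w2 w3).1) (fun w w1 w2 w3 => ?_) e a ha ha1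
      rw [hC2]
      unfold Ci
      rw [if_pos ⟨w1, w2, w3⟩]
      rfl
    have hpol := h2 N L D hc.pos hc.tpos r e hr hz a ha ha1
    have hpol' : Jk D.k z a = Jf e (D.A r) (D.C r) a := by
      rw [he]
      exact hpol
    rw [hpol', Jf_aff e (D.A r) (D.C r) C1 C2 a τ hCC (Ci_int D r _ _ e a ha ha1)
      (Ci_int D r _ _ e a ha ha1)]
    have k1 := abs_le.1 hJ1
    have k2 := abs_le.1 hJ2
    have hτ2 : 0 ≤ 1 - τ := by linarith
    rw [abs_le]
    constructor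
    · have a1 := mul_le_mul_of_nonneg_left k1.1 hτ0
      have a2 := mul_le_mul_of_nonneg_left k2.1 hτ2
      linarith
    · have a1 := mul_le_mul_of_nonneg_left k1.2 hτ0
      have a2 := mul_le_mul_of_nonneg_left k2.2 hτ2
      linarith

/-- **P1/ENDP.** -/
theorem main (h1 : S_KLD) (h2 : S_JPOL) (h3 : S_JZER) (h4 : S_SECC) (h5 : S_SGN) : S_ENDP := by
  intro N L D R hR hc
  obtain ⟨k1, k2, k3⟩ := h1 N L D hc.pos hc.tpos
  have hT : ∀ z : E 2, ‖z‖ ∉ Finset.univ.image D.ρ → ∀ j, ‖z‖ ≠ D.ρ j := by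
    intro z hz j hj
    exact hz (Finset.mem_image.2 ⟨j, Finset.mem_univ _, hj.symm⟩)
  refine ⟨k1, k2, ?_, ?_, ?_⟩
  · intro ρ hρ
    obtain ⟨j, -, rfl⟩ := Finset.mem_image.1 hρ
    exact hc.pos j
  · intro z hz
    exact k3 z (hT z hz)
  · intro z hz hz2 a ha ha1
    exact com h2 h3 h4 h5 D R hR hc z (hT z hz) hz2 a ha ha1

end Pool.Agent.N364.P1.ENDP
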