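import Mathlib
import Pool.Agent.N585.PA.Defs

/-!
# Project PA (helper585), part PA/5 (helper364): computability of the reduction
-/

set_option autoImplicit false

namespace Pool.Agent.N364.PAcomp

open Pool.Agent.N585.PA Pool.Agent.Helper948.Erode

lemma pc {f : ℕ → ℕ} (c : ℕ) (hf : Primrec f) : Primrec fun n => Nat.pair c (f n) :=
  Primrec₂.natPair.comp (Primrec.const c) hf

lemma pp {f g : ℕ → ℕ} (hf : Primrec f) (hg : Primrec g) : Primrec fun n => Nat.pair (f n) (g n) :=
  Primrec₂.natPair.comp hf hg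

section

variable {k : ℕ} {P : Type} (a b : Fin k) (e : Lt P → ℕ)

/-- the code of `ge (m + 1)` as a function of that of `ge m` -/
def F (j : Bool × Bool) (x : ℕ) : ℕ :=
  Nat.pair 1 (Nat.pair 3 (Nat.pair a (Nat.pair 1 (Nat.pair 2 (Nat.pair
    (code (Form.neg (at' e .vx) : Form (Fin k)))
    (Nat.pair 1 (Nat.pair 3 (Nat.pair b (Nat.pair 1 (Nat.pair 2 (Nat.pair
      (code (at' e .vx : Form (Fin k)))
      (Nat.pair 2 (Nat.pair (code (at' e (.ch j) : Form (Fin k))) x)))))))))))))

lemma code_ge_succ (j : Bool × Bool) (m : ℕ) :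
    code (ge a b e j (m + 1)) = F a b e j (code (ge a b e j m)) := rfl

lemma F_prim (j : Bool × Bool) : Primrec (F a b e j) := by
  unfold F
  exact pc _ (pc _ (pc _ (pc _ (pc _ (pc _ (pc _ (pc _ (pc _ (pc _ (pc _ (pc _ (pc _ (pc _
    Primrec.id)))))))))))))

lemma ge_prim (j : Bool × Bool) : Primrec fun N => code (ge a b e j N) := by
  have h : Primrec (Nat.rec (code (ge a b e j 0)) (fun _ x => F a b e j x) : ℕ → ℕ) :=
    Primrec.nat_rec₁ _ ((F_prim a b e j).comp Primrec.snd).to₂
  refine h.of_eq fun N => ?_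
  induction N with
  | zero => rfl
  | succ N ih =>
    rw [code_ge_succ, ← ih]

lemma ini_prim : Primrec fun N => code (ini0 a b e N) := by
  have h1 := ge_prim a b e (false, true)
  have h2 : Primrec fun N => code (ge a b e (false, true) (N + 1)) := h1.comp Primrec.succ
  have h3 : Primrec fun N => Nat.pair 2 (Nat.pair
      (Nat.pair 2 (Nat.pair (code (ge a b e (false, true) N))
        (Nat.pair 1 (code (ge a b e (false, true) (N + 1))))))
      (code (conj [.neg (ge a b e (false, false) 1), .neg (ge a b e (true, false) 1),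
        .neg (ge a b e (true, true) 1)]))) :=
    pc _ (pp (pc _ (pp h1 (pc _ h2))) (Primrec.const _))
  exact h3

end

theorem stmComp : StmComp := by
  intro k P a b e D Ps p0
  have h1 := ini_prim a b e
  have h2 : Primrec fun N => Nat.pair 1 (Nat.pair 2 (Nat.pair (code (at' e .vx : Form (Fin k)))
      (Nat.pair 2 (Nat.pair (code (at' e .cfg : Form (Fin k)))
      (Nat.pair 2 (Nat.pair (code (at' e (.st (some p0)) : Form (Fin k)))
      (Nat.pair 2 (Nat.pair (code (ini0 a b e N))
        (code (conj [.neg (.star (peel a b e .cfg) (dia a b e (at' e .cfg))),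
          glob a b e D Ps]))))))))) ) :=
    pc _ (pc _ (pc _ (pc _ (pc _ (pc _ (pc _ (pc _ (pp h1 (Primrec.const _)))))))))
  exact h2.to_comp

end Pool.Agent.N364.PAcomp
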